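import Pool.Agent.V5SU.Main

/-!
# The minimal model conjecture: uniruledness or `κ(X) = ν(X)` for fibre products of families of
superelliptic curves over a variety of log general type

Let `V` be any variety of dimension `p` with the function field `K0`, `y 0, …, y n` nonzero rational
functions on `V` whose ratios define a generically finite map of `V` to projective space, and `B` any
set of prime divisors over `V`, such that the complement of `B` and of the zeros and poles of the
ratios `y i / y j` is of log general type; there is no condition on the singularities of these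
divisors, and the Kodaira dimension of `V` itself is arbitrary, it is `-∞` for instance if
`V = ℙ^p`. There is a number `μ` which depends only on these data, such that the following holds for
all projective varieties `X` with canonical singularities (for instance projective manifolds) of any
dimension `p + e`, with a dominant rational map `X ⇢ V`, such that:

* (the base) for every prime divisor `P` of `X` which does not dominate `V`: either the orders of two
  of the functions `y i` along `P` differ by at least `μ`, or all `y i` have the same order along `P`,
  and the ramification index of `P` over `V` is at least `2` if `P` lies over a prime divisor in `B`;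
* (the fibres) `X` is birational to the fibre product over `V'` of `e` arbitrary cyclic covers of
  `V' × P^1`, where the function field `F` of `V'` is the algebraic closure of `ℂ(V)` in `ℂ(X)`; that
  is, `ℂ(X)` is generated over `F` by `x j`, `z j`, `j < e`, the `x j` are algebraically independent
  over `F`, and

  `z j ^ m j = c j * ∏ k, g j k (x j) ^ a j k`, `m j ≥ 1`, `a j k ≥ 0`, `c j ≠ 0` in `F`,

  where the `g j k` are polynomials over `F`, `g j k` of degree `d j k`, square free and pairwise
  without common roots (for given `j`).

Let `W j = ∑ k, d j k * (1 - gcd (m j, a j k) / m j) + 1 - gcd (m j, ∑ k, a j k * d j k) / m j`; if `C j`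
is the curve over `F` given by the `j`-th equation, of genus `g j`, and of degree `n j` over the line,
then `2 g j - 2 = n j * (W j - 2)`. Then one of the following holds:

* `W j < 2` for some `j`; then `X` is covered by rational curves (uniruled), `K_X` is not
  pseudo-effective, and `κ(X) = -∞`;
* `W j ≥ 2` for all `j`; then `κ(X) = ν(X)` is `p` plus the number of the `j` with `W j > 2`.

By known theorems, which are not part of the formal proof, `X` is birational to a Mori fibre space in
the first case (Birkar, Cascini, Hacon, McKernan), and in the second case `κ = ν` gives a good minimal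
model (Lai, Gongyo, Lehmann), so that the alternatives are those of the minimal model conjecture.

The language and the definitions of `Pool.Agent.Y172` are used: `X` is given by the homogeneous
coordinates `v` of its generic point, with values in the function field `K` of `X`; the prime divisors
of `X` are places `P` of `K`, `P.ord` is the order along `P`.

Proof: the Kodaira and the numerical dimension are given by `Pool.Agent.V1157.KL.cyc_lgt` (see
`MP_5ff3c6_ag.SuperellipticFibres`). The local monodromies of a cyclic cover of the line with `W < 2`
are trivial except at two points at most (`Pool.Agent.V5SU.branch`), and the cover of these curves over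
the algebraic closure of the function field of the product of the other factors is parametrised by the
line (`exists_par`, `unir_cyc`).
-/

set_option autoImplicit false

open FF Pool.Agent.W602.GT Pool.Agent.Y172 Pool.Agent.Y191 Pool.Agent.V1157.KL

namespace Pool.Agent.Results.MP_fa3f7f_ag.SuperellipticDichotomy

section

variable {K : Type} [Field K] [Algebra ℂ K] {N : ℕ}

/-- `X` is a projective variety of dimension `n` with canonical singularities, `v` is its generic
point. -/
def IsCanonicalVariety (v : Fin (N + 1) → K) (n : ℕ) : Prop :=
  NormalModel v ∧ Algebra.trdeg ℂ K = n ∧ Canonical v n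

/-- The prime divisors of `X` dominate the variety `V` with the function field `K0`, or satisfy the
condition on the multiplicities. -/
def HighOver (K0 : Type) [Field K0] [Algebra ℂ K0] [Algebra K0 K] {n : ℕ} (y : Fin (n + 1) → K0)
    (B : Place ℂ K0 → Prop) (μ : ℕ) (v : Fin (N + 1) → K) : Prop :=
  ∀ P, IsPrimeDivisor v P → (∀ g : K0, P.ord (algebraMap K0 K g) = 0) ∨ Mult y B μ P 0

/-- Let `F` be the algebraic closure of `L` in `K`. The field `K` is generated over `F` by elements
`x j`, `z j` with `z j ^ m j = c j * ∏ k, g j k (x j) ^ a j k`, where the `x j` are algebraically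
independent over `F`, `m j ≥ 1`, `c j` is a nonzero element of `F`, and the `g j k` are polynomials
over `F` of degree `d j k`, square free and pairwise without common roots for given `j`. -/
def CyclicFibres (L : IntermediateField ℂ K) {e : ℕ} (m s : Fin e → ℕ)
    (d a : ∀ j, Fin (s j) → ℕ) : Prop :=
  ∃ (x z c : Fin e → K) (g : ∀ j, Fin (s j) → Polynomial (acl ℂ (L : Set K))),
    CycData (acl ℂ (L : Set K)) x z m s g a c ∧ ∀ j k, (g j k).natDegree = d j k

end

/-- `W = ∑ k, d k * (1 - gcd (m, a k) / m) + 1 - gcd (m, ∑ k, a k * d k) / m` -/
def weight (m : ℕ) {s : ℕ} (d a : Fin s → ℕ) : ℚ :=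
  ∑ k, d k * (1 - (m.gcd (a k) : ℚ) / m) + (1 - (m.gcd (∑ k, a k * d k) : ℚ) / m)

/-- The varieties with the function field `K`, of dimension `n`, are uniruled: there are a variety of
dimension `n - 1`, with the function field `M`, and a dominant rational map from its product with the
projective line to the varieties with the function field `K`. -/
def IsUniruled (K : Type) [Field K] [Algebra ℂ K] (n : ℕ) : Prop :=
  ∃ (M : Type) (_ : Field M) (_ : Algebra ℂ M), Algebra.EssFiniteType ℂ M ∧
    Algebra.trdeg ℂ M + 1 = n ∧ Nonempty (K →ₐ[ℂ] RatFunc M)

theorem wsum_eq {K : Type} [Field K] [Algebra ℂ K] {F : IntermediateField ℂ K} {e : ℕ}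
    {m s : Fin e → ℕ} {g : ∀ j, Fin (s j) → Polynomial F} {a d : ∀ j, Fin (s j) → ℕ}
    (hd : ∀ j k, (g j k).natDegree = d j k) (j : Fin e) :
    wsum m s g a j = weight (m j) (d j) (a j) := by
  unfold wsum weight wtc
  simp only [hd]

/-- Let `K0` be the function field of a variety `V` of dimension `p`, let `y i` be nonzero elements of
`K0` such that `K0` is algebraic over the field generated by their ratios, and let `B` be a set of
places, such that the complement in `V` of the prime divisors in `B` and of the zeros and poles of the
ratios is of log general type. Then there is a number `μ` such that for all projective varieties `X`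
of dimension `p + e` with canonical singularities, with a dominant rational map `X ⇢ V`, such that the
prime divisors of `X` dominate `V` or satisfy the condition on the multiplicities (`HighOver`), and
fibres as in `CyclicFibres`: if `W j < 2` for some `j` then `X` is uniruled and the Kodaira dimension
and the numerical dimension of `K_X` are `-∞`; otherwise both are `p` plus the number of the `j` with
`W j > 2`. -/
theorem result (K0 : Type) [Field K0] [Algebra ℂ K0] [Algebra.EssFiniteType ℂ K0] (n p : ℕ)
    (y : Fin (n + 1) → K0) (B : Place ℂ K0 → Prop) (hy : ∀ i, y i ≠ 0)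
    (halg : ∀ z : K0, IsAlgebraic (IntermediateField.adjoin ℂ (Set.range fun i => y i / y 0)) z)
    (hgt : LogGeneralType ℂ K0 p (fun P => (∃ i, P.ord (y i) ≠ P.ord (y 0)) ∨ B P)) :
    ∃ μ : ℕ, ∀ (K : Type) [Field K] [Algebra ℂ K] [Algebra K0 K] [IsScalarTower ℂ K0 K]
      (N e : ℕ) (m s : Fin e → ℕ) (d a : ∀ j, Fin (s j) → ℕ) (v : Fin (N + 1) → K),
      IsCanonicalVariety v (p + e) → HighOver K0 y B μ v → CyclicFibres (img K0 K) m s d a →
      ((∃ j, weight (m j) (d j) (a j) < 2) → IsUniruled K (p + e) ∧
        kodairaDim v (p + e) 0 = ⊥ ∧ ∀ A, Effective v A → numericalDim v (p + e) 0 A = ⊥) ∧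
      ((∀ j, 2 ≤ weight (m j) (d j) (a j)) → kodairaDim v (p + e) 0 =
        ((p + (Finset.univ.filter fun j => 2 < weight (m j) (d j) (a j)).card : ℕ) : WithBot ℕ) ∧
        ∀ A, Effective v A → Integral v A → numericalDim v (p + e) 0 A =
          ((p + (Finset.univ.filter fun j => 2 < weight (m j) (d j) (a j)).card : ℕ) : EReal)) := by
  obtain ⟨μ, hμ⟩ := Pool.Agent.V5SU.main K0 n p y B hy halg hgt
  refine ⟨μ, ?_⟩
  rintro K _ _ _ _ N e m s d a v ⟨hv, hn, hcan⟩ hH ⟨x, z, c, g, hc, hd⟩
  obtain ⟨h1, h2, h3⟩ := hμ K N e v hv hn hcan hH m s x z c a g hc
  simp only [wsum_eq hd] at h1 h3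
  have h4 : kodairaDim v (p + e) 0 = ⊥ ↔ ∃ j, weight (m j) (d j) (a j) < 2 := h1.out 0 2
  have h5 : (∀ A, Effective v A → numericalDim v (p + e) 0 A = ⊥) ↔
    ∃ j, weight (m j) (d j) (a j) < 2 := h1.out 1 2
  exact ⟨fun h => ⟨h2 (h4.2 h), h4.2 h, h5.2 h⟩, fun h => h3 fun h6 => by
    obtain ⟨j, hj⟩ := h4.1 h6
    exact absurd hj (not_lt.2 (h j))⟩

end Pool.Agent.Results.MP_fa3f7f_ag.SuperellipticDichotomy
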